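import Pool.Agent.D0H7.CVP.Up

set_option autoImplicit false

open scoped ENNReal BigOperators

namespace Pool.Agent.D0H7.CVP

/-- `f` convolves `ℓ^p(G)` boundedly (left convolution of finitely supported functions). -/
def IsConvolver {G : Type*} [Group G] (p : ℝ) (f : G → ℂ) : Prop :=
  ∃ C : ℝ, ∀ ξ : G →₀ ℂ,
    Summable (fun g : G => ‖∑ k ∈ ξ.support, f (g * k⁻¹) * ξ k‖ ^ p) ∧
    ∑' g : G, ‖∑ k ∈ ξ.support, f (g * k⁻¹) * ξ k‖ ^ p ≤ C * ∑ k ∈ ξ.support, ‖ξ k‖ ^ p

section duality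

variable {G : Type*} [Group G]

theorem dual {p q : ℝ} (hpq : p.HolderConjugate q) (f : G → ℂ) (h : IsConvolver p f) :
    IsConvolver q (fun x => starRingEnd ℂ (f x⁻¹)) := by
  obtain ⟨C0, hC0⟩ := h
  set C : ℝ := |C0| with hC
  have hCnn : 0 ≤ C := abs_nonneg _
  have hp0 : 0 < p := hpq.pos
  have hq0 : 0 < q := hpq.symm.pos
  have hCξ : ∀ (ξ : G →₀ ℂ) (F : Finset G),
      ∑ g ∈ F, ‖∑ k ∈ ξ.support, f (g * k⁻¹) * ξ k‖ ^ p ≤ C * ∑ k ∈ ξ.support, ‖ξ k‖ ^ p := by
    intro ξ F
    obtain ⟨h1, h2⟩ := hC0 ξ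
    refine (h1.sum_le_tsum F (fun _ _ => by positivity)).trans (h2.trans ?_)
    exact mul_le_mul_of_nonneg_right (le_abs_self _) (Finset.sum_nonneg fun _ _ => by positivity)
  -- the main inequality on finite sets
  have key : ∀ (η : G →₀ ℂ) (F : Finset G),
      ∑ g ∈ F, ‖∑ k ∈ η.support, starRingEnd ℂ (f ((g * k⁻¹)⁻¹)) * η k‖ ^ q ≤
        C ^ (q / p) * ∑ k ∈ η.support, ‖η k‖ ^ q := by
    classical
    intro η F
    set hh : G → ℂ := fun g => ∑ k ∈ η.support, starRingEnd ℂ (f ((g * k⁻¹)⁻¹)) * η k with hhh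
    set S : ℝ := ∑ g ∈ F, ‖hh g‖ ^ q with hS
    have hSnn : 0 ≤ S := Finset.sum_nonneg fun _ _ => by positivity
    -- test function
    set w : G → ℂ := fun g => if g ∈ F then ((‖hh g‖ ^ (q - 2) : ℝ) : ℂ) * hh g else 0 with hw
    set ξ : G →₀ ℂ := Finsupp.onFinset F w (by
      intro g hg
      by_contra hc
      exact hg (by rw [hw]; simp [hc])) with hξ
    have hξv : ∀ g, ξ g = w g := fun g => rfl
    have hξs : ξ.support ⊆ F := Finsupp.support_onFinset_subset
    have hnorm : ∀ g ∈ F, ‖w g‖ ^ p = ‖hh g‖ ^ q := by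
      intro g hg
      rw [hw]
      simp only [if_pos hg]
      rw [norm_mul, Complex.norm_real, Real.norm_of_nonneg (by positivity)]
      rcases eq_or_ne (hh g) 0 with h0 | h0
      · rw [h0, norm_zero, mul_zero, Real.zero_rpow hp0.ne', Real.zero_rpow hq0.ne']
      · have hpos : 0 < ‖hh g‖ := norm_pos_iff.2 h0
        have : ‖hh g‖ ^ (q - 2) * ‖hh g‖ = ‖hh g‖ ^ (q - 1) := by
          rw [← Real.rpow_add_one hpos.ne']; congr 1; ring
        rw [this, ← Real.rpow_mul hpos.le]
        congr 1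
        have := hpq.symm.sub_one_mul_conj
        linarith
    have hsum_norm : ∑ k ∈ ξ.support, ‖ξ k‖ ^ p = S := by
      rw [hS]
      have : ∑ k ∈ ξ.support, ‖ξ k‖ ^ p = ∑ k ∈ F, ‖ξ k‖ ^ p := by
        refine Finset.sum_subset hξs fun k _ hk => ?_
        rw [Finsupp.notMem_support_iff.1 hk, norm_zero, Real.zero_rpow hp0.ne']
      rw [this]
      exact Finset.sum_congr rfl fun k hk => by rw [hξv]; exact hnorm k hk
    -- the pairing
    have hpair1 : ∑ g ∈ F, starRingEnd ℂ (w g) * hh g = (S : ℂ) := by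
      rw [hS]
      push_cast
      refine Finset.sum_congr rfl fun g hg => ?_
      rw [hw]
      simp only [if_pos hg]
      rw [map_mul, Complex.conj_ofReal, mul_assoc, ← Complex.normSq_eq_conj_mul_self,
        Complex.normSq_eq_norm_sq, ← Complex.ofReal_mul]
      congr 1
      rcases eq_or_ne (hh g) 0 with h0 | h0
      · rw [h0, norm_zero, Real.zero_rpow hq0.ne']; simp
      · have hpos : 0 < ‖hh g‖ := norm_pos_iff.2 h0
        rw [← Real.rpow_natCast, ← Real.rpow_add hpos]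
        congr 1; push_cast; ring
    have hpair2 : ∑ g ∈ F, starRingEnd ℂ (w g) * hh g =
        ∑ k ∈ η.support, η k * starRingEnd ℂ (∑ g ∈ ξ.support, f (k * g⁻¹) * ξ g) := by
      have e1 : ∀ k, ∑ g ∈ ξ.support, f (k * g⁻¹) * ξ g = ∑ g ∈ F, f (k * g⁻¹) * w g := by
        intro k
        refine (Finset.sum_subset hξs fun g _ hg => ?_).trans ?_
        · rw [Finsupp.notMem_support_iff.1 hg, mul_zero]
        · rfl
      simp only [e1, map_sum, map_mul, hhh, Finset.mul_sum]
      rw [Finset.sum_comm]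
      refine Finset.sum_congr rfl fun k _ => Finset.sum_congr rfl fun g _ => ?_
      rw [mul_inv_rev, inv_inv]
      ring
    have hSle : S ≤ ∑ k ∈ η.support, ‖η k‖ * ‖∑ g ∈ ξ.support, f (k * g⁻¹) * ξ g‖ := by
      have : (S : ℂ) = ∑ k ∈ η.support, η k * starRingEnd ℂ (∑ g ∈ ξ.support, f (k * g⁻¹) * ξ g) := by
        rw [← hpair1, hpair2]
      have h2 : ‖(S : ℂ)‖ ≤ ∑ k ∈ η.support, ‖η k‖ * ‖∑ g ∈ ξ.support, f (k * g⁻¹) * ξ g‖ := by
        rw [this]
        refine (norm_sum_le _ _).trans (le_of_eq ?_)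
        refine Finset.sum_congr rfl fun k _ => ?_
        rw [norm_mul, RCLike.norm_conj]
      rwa [Complex.norm_real, Real.norm_of_nonneg hSnn] at h2
    have hHold := Real.inner_le_Lp_mul_Lq_of_nonneg η.support hpq.symm
      (f := fun k => ‖η k‖) (g := fun k => ‖∑ g ∈ ξ.support, f (k * g⁻¹) * ξ g‖)
      (fun _ _ => norm_nonneg _) (fun _ _ => norm_nonneg _)
    have hfin := hCξ ξ η.support
    rw [hsum_norm] at hfin
    set N : ℝ := ∑ k ∈ η.support, ‖η k‖ ^ q with hN
    have hNnn : 0 ≤ N := Finset.sum_nonneg fun _ _ => by positivity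
    have hS2 : S ≤ N ^ (1 / q) * (C * S) ^ (1 / p) := by
      refine (hSle.trans hHold).trans ?_
      refine mul_le_mul_of_nonneg_left ?_ (by positivity)
      exact Real.rpow_le_rpow (Finset.sum_nonneg fun _ _ => by positivity) hfin (by positivity)
    -- conclude
    rcases hSnn.eq_or_lt with h0 | hpos
    · rw [← h0]; positivity
    · have h3 : S ^ (1 / q) ≤ N ^ (1 / q) * C ^ (1 / p) := by
        rw [Real.mul_rpow hCnn hSnn, ← mul_assoc] at hS2
        have hSp : 0 < S ^ (1 / p) := Real.rpow_pos_of_pos hpos _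
        have hSS : S ^ (1 / q) * S ^ (1 / p) = S := by
          rw [← Real.rpow_add hpos]
          have : 1 / q + 1 / p = 1 := by
            have := hpq.inv_add_inv_eq_one
            rw [one_div, one_div]; linarith
          rw [this, Real.rpow_one]
        rw [← hSS] at hS2
        have : S ^ (1 / q) * S ^ (1 / p) ≤ N ^ (1 / q) * C ^ (1 / p) * S ^ (1 / p) := by
          refine hS2.trans (le_of_eq ?_)
          rw [hSS]
        exact le_of_mul_le_mul_right this hSp
      have h4 := Real.rpow_le_rpow (by positivity) h3 hq0.le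
      rw [← Real.rpow_mul hSnn, one_div_mul_cancel hq0.ne', Real.rpow_one,
        Real.mul_rpow (by positivity) (by positivity), ← Real.rpow_mul hNnn,
        one_div_mul_cancel hq0.ne', Real.rpow_one, ← Real.rpow_mul hCnn] at h4
      rw [show q / p = 1 / p * q by ring, mul_comm]
      exact h4
  refine ⟨C ^ (q / p), fun η => ?_⟩
  have hs : Summable (fun g : G =>
      ‖∑ k ∈ η.support, starRingEnd ℂ (f ((g * k⁻¹)⁻¹)) * η k‖ ^ q) :=
    summable_of_sum_le (fun _ => by positivity) (key η)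
  exact ⟨hs, hs.tsum_le_of_sum_le (key η)⟩

end duality

end Pool.Agent.D0H7.CVP
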