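import Pool.Agent.D0H7.CVP.Core

set_option autoImplicit false

open scoped ENNReal BigOperators

namespace Pool.Agent.D0H7.CVP

/-- sums and `p`-th powers -/
theorem tsum_rpow_le (v : ℕ → ℝ≥0∞) {p : ℝ} (hp : 0 < p) :
    (∑' n, v n) ^ p ≤ ∑' n, ((2 : ℝ≥0∞) ^ (n + 1) * v n) ^ p := by
  set M := ∑' n, ((2 : ℝ≥0∞) ^ (n + 1) * v n) ^ p with hM
  have h1 : ∀ n, v n ≤ (2⁻¹ : ℝ≥0∞) ^ (n + 1) * M ^ (1 / p) := by
    intro n
    have h2 : ((2 : ℝ≥0∞) ^ (n + 1) * v n) ^ p ≤ M := ENNReal.le_tsum n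
    have h3 : (2 : ℝ≥0∞) ^ (n + 1) * v n ≤ M ^ (1 / p) := by
      rw [one_div, ENNReal.le_rpow_inv_iff hp]; exact h2
    calc v n = (2⁻¹ : ℝ≥0∞) ^ (n + 1) * ((2 : ℝ≥0∞) ^ (n + 1) * v n) := by
          rw [← mul_assoc, ← mul_pow, ENNReal.inv_mul_cancel (by norm_num) (by norm_num), one_pow,
            one_mul]
      _ ≤ _ := by gcongr
  have h2 : ∑' n, v n ≤ M ^ (1 / p) := by
    calc ∑' n, v n ≤ ∑' n, (2⁻¹ : ℝ≥0∞) ^ (n + 1) * M ^ (1 / p) := ENNReal.tsum_le_tsum h1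
      _ = M ^ (1 / p) := by
        rw [ENNReal.tsum_mul_right, ENNReal.tsum_geometric_add_one, ENNReal.one_sub_inv_two,
          inv_inv, ENNReal.inv_mul_cancel (by norm_num) (by norm_num), one_mul]
  calc (∑' n, v n) ^ p ≤ (M ^ (1 / p)) ^ p := by gcongr
    _ = M := by rw [← ENNReal.rpow_mul, one_div_mul_cancel hp.ne', ENNReal.rpow_one]

variable {G : Type*} [Group G]

/-- A bound for nonnegative functions gives a convolver. -/
theorem isConvolver_of_bound {p : ℝ} (hp : 0 < p) (f : G → ℂ) (F : G → ℝ≥0∞)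
    (hF : ∀ x, ‖f x‖ₑ ≤ F x) (B : ℝ≥0∞) (hB : B ≠ ⊤)
    (h : ∀ X : G → ℝ≥0∞, ∑' g, (∑' k, F (g * k⁻¹) * X k) ^ p ≤ B * ∑' k, X k ^ p) :
    IsConvolver p f := by
  refine ⟨B.toReal, fun ξ => ?_⟩
  set X : G → ℝ≥0∞ := fun k => ‖ξ k‖ₑ with hX
  have hXs : ∑' k, X k ^ p = ∑ k ∈ ξ.support, X k ^ p := by
    refine tsum_eq_sum fun k hk => ?_
    rw [hX]
    simp only
    rw [Finsupp.notMem_support_iff.1 hk, enorm_zero, ENNReal.zero_rpow_of_pos hp]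
  have hXs2 : ∑ k ∈ ξ.support, X k ^ p = ENNReal.ofReal (∑ k ∈ ξ.support, ‖ξ k‖ ^ p) := by
    rw [ENNReal.ofReal_sum_of_nonneg (fun _ _ => by positivity)]
    refine Finset.sum_congr rfl fun k _ => ?_
    rw [← ENNReal.ofReal_rpow_of_nonneg (norm_nonneg _) hp.le, ofReal_norm]
  have hpt : ∀ g, ‖∑ k ∈ ξ.support, f (g * k⁻¹) * ξ k‖ₑ ≤ ∑' k, F (g * k⁻¹) * X k := by
    intro g
    calc ‖∑ k ∈ ξ.support, f (g * k⁻¹) * ξ k‖ₑ
        ≤ ∑ k ∈ ξ.support, ‖f (g * k⁻¹) * ξ k‖ₑ := enorm_sum_le _ _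
      _ ≤ ∑ k ∈ ξ.support, F (g * k⁻¹) * X k := by
          refine Finset.sum_le_sum fun k _ => ?_
          rw [enorm_mul]
          exact mul_le_mul' (hF _) le_rfl
      _ ≤ ∑' k, F (g * k⁻¹) * X k := ENNReal.sum_le_tsum _
  have hmain : ∑' g, ENNReal.ofReal (‖∑ k ∈ ξ.support, f (g * k⁻¹) * ξ k‖ ^ p) ≤
      B * ENNReal.ofReal (∑ k ∈ ξ.support, ‖ξ k‖ ^ p) := by
    rw [← hXs2, ← hXs]
    refine le_trans (ENNReal.tsum_le_tsum fun g => ?_) (h X)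
    rw [← ENNReal.ofReal_rpow_of_nonneg (norm_nonneg _) hp.le, ofReal_norm]
    exact ENNReal.rpow_le_rpow (hpt g) hp.le
  have hfin : B * ENNReal.ofReal (∑ k ∈ ξ.support, ‖ξ k‖ ^ p) ≠ ⊤ :=
    ENNReal.mul_ne_top hB ENNReal.ofReal_ne_top
  have hne : ∑' g, ENNReal.ofReal (‖∑ k ∈ ξ.support, f (g * k⁻¹) * ξ k‖ ^ p) ≠ ⊤ :=
    ne_top_of_le_ne_top hfin hmain
  have hs := ENNReal.summable_toReal hne
  have hto : ∀ g : G, (ENNReal.ofReal (‖∑ k ∈ ξ.support, f (g * k⁻¹) * ξ k‖ ^ p)).toReal =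
      ‖∑ k ∈ ξ.support, f (g * k⁻¹) * ξ k‖ ^ p := fun g => ENNReal.toReal_ofReal (by positivity)
  simp only [hto] at hs
  refine ⟨hs, ?_⟩
  have h1 := ENNReal.toReal_mono hfin hmain
  rw [ENNReal.tsum_toReal_eq (fun _ => ENNReal.ofReal_ne_top), ENNReal.toReal_mul,
    ENNReal.toReal_ofReal (Finset.sum_nonneg fun _ _ => by positivity)] at h1
  simpa only [hto] using h1

/-! ### The function -/

def mm (n : ℕ) : ℕ := 2 ^ (2 * n ^ 2)
def LL (n : ℕ) : ℕ := 2 ^ (n ^ 3)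
def NN (n : ℕ) : ℕ := n ^ 3 + n ^ 2 + 2 * n

variable (P : PP G)

open Classical in
/-- the set `{t_i α^j : i < m, j < L}` -/
noncomputable def EE (n : ℕ) : Finset G :=
  (Finset.range (mm n) ×ˢ Finset.range (LL n)).image fun z => P.t z.1 * P.α ^ z.2

open Classical in
noncomputable def FF (x : G) : ℝ≥0∞ := ∑' n, if x ∈ EE P n then ((2 : ℝ≥0∞) ^ NN n)⁻¹ else 0

lemma FF_ne_top (x : G) : FF P x ≠ ⊤ := by
  have h : FF P x ≤ ∑' n : ℕ, (2⁻¹ : ℝ≥0∞) ^ n := by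
    refine ENNReal.tsum_le_tsum fun n => ?_
    split_ifs
    · rw [ENNReal.inv_pow]
      exact pow_le_pow_right_of_le_one' (by norm_num) (by unfold NN; omega)
    · exact zero_le
  refine ne_top_of_le_ne_top ?_ h
  rw [ENNReal.tsum_geometric, ENNReal.one_sub_inv_two, inv_inv]
  exact ENNReal.ofNat_ne_top

/-- the function `f` -/
noncomputable def ff (x : G) : ℝ := (FF P x).toReal

lemma ff_nonneg (x : G) : 0 ≤ ff P x := ENNReal.toReal_nonneg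

lemma enorm_ff (x : G) : ‖((ff P x : ℝ) : ℂ)‖ₑ = FF P x := by
  rw [← ofReal_norm, Complex.norm_real, Real.norm_of_nonneg (ff_nonneg P x), ff,
    ENNReal.ofReal_toReal (FF_ne_top P x)]

/-- the numerical series -/
noncomputable def BB (p : ℝ) : ℝ≥0∞ := ∑' n : ℕ, ((2 : ℝ≥0∞) ^ (n + 1) * ((2 : ℝ≥0∞) ^ NN n)⁻¹) ^ p *
  (2 ^ (p - 1) * ((mm n : ℝ≥0∞) * LL n * (LL n : ℝ≥0∞) ^ (p - 1) +
    ((mm n : ℝ≥0∞) * LL n) ^ (p - 1)))

lemma BB_ne_top {p : ℝ} (hp : 2 ≤ p) : BB p ≠ ⊤ := by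
  have h2 : (2 : ℝ≥0∞) ≠ 0 := by norm_num
  have h2' : (2 : ℝ≥0∞) ≠ ⊤ := by norm_num
  have hmm : ∀ n, (mm n : ℝ≥0∞) = 2 ^ (2 * (n : ℝ) ^ 2) := by
    intro n
    unfold mm
    push_cast
    rw [← ENNReal.rpow_natCast]
    congr 1; push_cast; ring
  have hLL : ∀ n, (LL n : ℝ≥0∞) = 2 ^ ((n : ℝ) ^ 3) := by
    intro n
    unfold LL
    push_cast
    rw [← ENNReal.rpow_natCast]
    congr 1; push_cast; ring
  have hcc : ∀ n : ℕ, (2 : ℝ≥0∞) ^ (n + 1) * ((2 : ℝ≥0∞) ^ NN n)⁻¹ =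
      2 ^ ((n : ℝ) + 1 - ((n : ℝ) ^ 3 + (n : ℝ) ^ 2 + 2 * n)) := by
    intro n
    rw [← ENNReal.rpow_natCast, ← ENNReal.rpow_natCast, ← ENNReal.rpow_neg,
      ← ENNReal.rpow_add _ _ h2 h2']
    congr 1; unfold NN; push_cast; ring
  set K : ℝ := 2 * p + p ^ 3 with hK
  have hcube : ∀ n : ℕ, (p - 2) * (n : ℝ) ^ 2 - (n : ℝ) ^ 3 ≤ p ^ 3 := by
    intro n
    have hn : (0 : ℝ) ≤ n := Nat.cast_nonneg n
    rcases le_total (n : ℝ) p with h | h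
    · have h1 : (n : ℝ) ^ 2 ≤ p ^ 2 := by gcongr
      have h3 : (p - 2) * (n : ℝ) ^ 2 ≤ p * p ^ 2 := by
        refine mul_le_mul (by linarith) h1 (by positivity) (by linarith)
      have h4 : 0 ≤ (n : ℝ) ^ 3 := by positivity
      nlinarith
    · have h1 : (p - 2) * (n : ℝ) ^ 2 ≤ n * (n : ℝ) ^ 2 :=
        mul_le_mul_of_nonneg_right (by linarith) (by positivity)
      have h4 : 0 ≤ p ^ 3 := by positivity
      nlinarith
  have hterm : ∀ n : ℕ, ((2 : ℝ≥0∞) ^ (n + 1) * ((2 : ℝ≥0∞) ^ NN n)⁻¹) ^ p *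
      (2 ^ (p - 1) * ((mm n : ℝ≥0∞) * LL n * (LL n : ℝ≥0∞) ^ (p - 1) +
        ((mm n : ℝ≥0∞) * LL n) ^ (p - 1))) ≤ 2 * 2 ^ K * (2⁻¹ : ℝ≥0∞) ^ n := by
    intro n
    have hinv : (2⁻¹ : ℝ≥0∞) ^ n = 2 ^ (-(n : ℝ)) := by
      rw [ENNReal.rpow_neg, ENNReal.rpow_natCast, ENNReal.inv_pow]
    rw [hcc, hmm, hLL, hinv, ← ENNReal.rpow_mul, ← ENNReal.rpow_mul, ← ENNReal.rpow_add _ _ h2 h2',
      ← ENNReal.rpow_add _ _ h2 h2', ← ENNReal.rpow_mul, mul_add, mul_add,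
      ← ENNReal.rpow_add _ _ h2 h2', ← ENNReal.rpow_add _ _ h2 h2', ← ENNReal.rpow_add _ _ h2 h2',
      ← ENNReal.rpow_add _ _ h2 h2', mul_assoc, ← ENNReal.rpow_add _ _ h2 h2',
      two_mul ((2 : ℝ≥0∞) ^ (K + -(n : ℝ)))]
    have hn : (0 : ℝ) ≤ n := Nat.cast_nonneg n
    have hc := hcube n
    have hp3 : 0 ≤ p ^ 3 := by positivity
    have hpn : (n : ℝ) ≤ p * n := by nlinarith
    have hn2 : 0 ≤ (p - 2) * (n : ℝ) ^ 2 := mul_nonneg (by linarith) (by positivity)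
    refine add_le_add ?_ ?_
    · refine ENNReal.rpow_le_rpow_of_exponent_le (by norm_num) ?_
      rw [hK]
      nlinarith
    · refine ENNReal.rpow_le_rpow_of_exponent_le (by norm_num) ?_
      rw [hK]
      nlinarith
  have hle : BB p ≤ ∑' n : ℕ, 2 * 2 ^ K * (2⁻¹ : ℝ≥0∞) ^ n := ENNReal.tsum_le_tsum hterm
  refine ne_top_of_le_ne_top ?_ hle
  rw [ENNReal.tsum_mul_left, ENNReal.tsum_geometric, ENNReal.one_sub_inv_two, inv_inv]
  refine ENNReal.mul_ne_top (ENNReal.mul_ne_top h2' ?_) h2'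
  exact ENNReal.rpow_ne_top_of_ne_zero h2 h2'

open Classical in
theorem FF_bound {p : ℝ} (hp : 1 ≤ p) (X : G → ℝ≥0∞) :
    ∑' g, (∑' k, FF P (g * k⁻¹) * X k) ^ p ≤ BB p * ∑' k, X k ^ p := by
  have hp0 : 0 < p := by linarith
  set U : ℕ → G → ℝ≥0∞ := fun n g =>
    ∑ z ∈ Finset.range (mm n) ×ˢ Finset.range (LL n), X ((P.t z.1 * P.α ^ z.2)⁻¹ * g) with hU
  have hpt : ∀ g, ∑' k, FF P (g * k⁻¹) * X k ≤ ∑' n, ((2 : ℝ≥0∞) ^ NN n)⁻¹ * U n g := by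
    intro g
    calc ∑' k, FF P (g * k⁻¹) * X k
        = ∑' k, ∑' n, ((2 : ℝ≥0∞) ^ NN n)⁻¹ * (if g * k⁻¹ ∈ EE P n then X k else 0) := by
          refine tsum_congr fun k => ?_
          rw [FF, ← ENNReal.tsum_mul_right]
          refine tsum_congr fun n => ?_
          split_ifs <;> simp
      _ = ∑' n, ∑' k, ((2 : ℝ≥0∞) ^ NN n)⁻¹ * (if g * k⁻¹ ∈ EE P n then X k else 0) :=
          ENNReal.tsum_comm
      _ = ∑' n, ((2 : ℝ≥0∞) ^ NN n)⁻¹ * ∑' k, (if g * k⁻¹ ∈ EE P n then X k else 0) := by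
          refine tsum_congr fun n => ?_
          rw [ENNReal.tsum_mul_left]
      _ ≤ ∑' n, ((2 : ℝ≥0∞) ^ NN n)⁻¹ * U n g := by
          refine ENNReal.tsum_le_tsum fun n => ?_
          refine mul_le_mul' le_rfl ?_
          calc ∑' k, (if g * k⁻¹ ∈ EE P n then X k else 0)
              ≤ ∑' k, ∑ z ∈ Finset.range (mm n) ×ˢ Finset.range (LL n),
                  (if k = (P.t z.1 * P.α ^ z.2)⁻¹ * g then X k else 0) := by
                refine ENNReal.tsum_le_tsum fun k => ?_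
                split_ifs with hk
                · obtain ⟨z, hz, hzk⟩ := Finset.mem_image.1 hk
                  have hk' : k = (P.t z.1 * P.α ^ z.2)⁻¹ * g := by
                    rw [hzk]; group
                  refine le_trans ?_ (Finset.single_le_sum (f := fun z : ℕ × ℕ =>
                    if k = (P.t z.1 * P.α ^ z.2)⁻¹ * g then X k else 0)
                    (fun _ _ => zero_le) hz)
                  rw [if_pos hk']
                · exact zero_le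
            _ = ∑ z ∈ Finset.range (mm n) ×ˢ Finset.range (LL n),
                  ∑' k, (if k = (P.t z.1 * P.α ^ z.2)⁻¹ * g then X k else 0) := by
                rw [Summable.tsum_finsetSum (fun _ _ => ENNReal.summable)]
            _ = U n g := by
                refine Finset.sum_congr rfl fun z _ => ?_
                rw [tsum_ite_eq]
  calc ∑' g, (∑' k, FF P (g * k⁻¹) * X k) ^ p
      ≤ ∑' g, (∑' n, ((2 : ℝ≥0∞) ^ NN n)⁻¹ * U n g) ^ p :=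
        ENNReal.tsum_le_tsum fun g => ENNReal.rpow_le_rpow (hpt g) hp0.le
    _ ≤ ∑' g, ∑' n, ((2 : ℝ≥0∞) ^ (n + 1) * (((2 : ℝ≥0∞) ^ NN n)⁻¹ * U n g)) ^ p :=
        ENNReal.tsum_le_tsum fun g => tsum_rpow_le _ hp0
    _ = ∑' n, ∑' g, ((2 : ℝ≥0∞) ^ (n + 1) * (((2 : ℝ≥0∞) ^ NN n)⁻¹ * U n g)) ^ p :=
        ENNReal.tsum_comm
    _ = ∑' n : ℕ, ((2 : ℝ≥0∞) ^ (n + 1) * ((2 : ℝ≥0∞) ^ NN n)⁻¹) ^ p * ∑' g, U n g ^ p := by
        refine tsum_congr fun n => ?_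
        rw [← ENNReal.tsum_mul_left]
        refine tsum_congr fun g => ?_
        rw [← mul_assoc, ENNReal.mul_rpow_of_nonneg _ _ hp0.le]
    _ ≤ ∑' n : ℕ, ((2 : ℝ≥0∞) ^ (n + 1) * ((2 : ℝ≥0∞) ^ NN n)⁻¹) ^ p *
          (2 ^ (p - 1) * ((mm n : ℝ≥0∞) * LL n * (LL n : ℝ≥0∞) ^ (p - 1) +
            ((mm n : ℝ≥0∞) * LL n) ^ (p - 1)) * ∑' k, X k ^ p) := by
        refine ENNReal.tsum_le_tsum fun n => ?_
        exact mul_le_mul' le_rfl (block_bound P X p hp (mm n) (LL n))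
    _ = BB p * ∑' k, X k ^ p := by
        rw [BB, ← ENNReal.tsum_mul_right]
        refine tsum_congr fun n => ?_
        ring

theorem ff_convolver {p : ℝ} (hp : 2 ≤ p) : IsConvolver p (fun x => ((ff P x : ℝ) : ℂ)) :=
  isConvolver_of_bound (by linarith) _ (FF P) (fun x => (enorm_ff P x).le) (BB p) (BB_ne_top hp)
    (fun X => FF_bound P (by linarith) X)

end Pool.Agent.D0H7.CVP
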