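import Pool.Agent.D0H7.CVP.Fun

set_option autoImplicit false

open scoped ENNReal BigOperators

namespace Pool.Agent.D0H7.CVP

variable {G : Type*} [Group G] (P : PP G)

lemma ff_ge (n i j : ℕ) (hi : i < mm n) (hj : j < LL n) :
    ((2 : ℝ) ^ NN n)⁻¹ ≤ ff P (P.t i * P.α ^ j) := by
  classical
  have h : ((2 : ℝ≥0∞) ^ NN n)⁻¹ ≤ FF P (P.t i * P.α ^ j) := by
    unfold FF
    refine le_trans ?_ (ENNReal.le_tsum n)
    rw [if_pos]
    exact Finset.mem_image.2 ⟨(i, j), by simp [hi, hj], rfl⟩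
  have := ENNReal.toReal_mono (FF_ne_top P _) h
  rw [ENNReal.toReal_inv, ENNReal.toReal_pow, ENNReal.toReal_ofNat] at this
  exact this

/-- The lower bound for one block. -/
theorem block_low {p C : ℝ} (hp : 0 < p)
    (h : ∀ ξ : G →₀ ℂ,
      Summable (fun g : G => ‖∑ k ∈ ξ.support, starRingEnd ℂ ((ff P ((g * k⁻¹)⁻¹) : ℝ) : ℂ) * ξ k‖ ^ p) ∧
      ∑' g : G, ‖∑ k ∈ ξ.support, starRingEnd ℂ ((ff P ((g * k⁻¹)⁻¹) : ℝ) : ℂ) * ξ k‖ ^ p ≤
        C * ∑ k ∈ ξ.support, ‖ξ k‖ ^ p) (n : ℕ) :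
    (LL n : ℝ) * ((mm n : ℝ) * LL n * ((2 : ℝ) ^ NN n)⁻¹) ^ p ≤ |C| * (mm n * (2 * LL n)) := by
  classical
  set m := mm n with hm
  set L := LL n with hL
  set Q : Finset G := (Finset.range m ×ˢ Finset.range (2 * L)).image
    (fun z => P.t z.1 * P.α ^ z.2) with hQ
  have hinj : Function.Injective (fun z : ℕ × ℕ => P.t z.1 * P.α ^ z.2) := by
    intro z z' hzz
    have := P.ta_inj hzz
    exact Prod.ext this.1 this.2
  set ξ : G →₀ ℂ := Finsupp.onFinset Q (fun k => if k ∈ Q then 1 else 0) (by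
    intro k hk
    by_contra hc
    exact hk (if_neg hc)) with hξ
  have hξv : ∀ k, ξ k = if k ∈ Q then 1 else 0 := fun k => rfl
  have hξs : ξ.support = Q := by
    ext k
    rw [Finsupp.mem_support_iff, hξv]
    by_cases hk : k ∈ Q <;> simp [hk]
  obtain ⟨h1, h2⟩ := h ξ
  have hconv : ∀ g, ∑ k ∈ ξ.support, starRingEnd ℂ ((ff P ((g * k⁻¹)⁻¹) : ℝ) : ℂ) * ξ k =
      ((∑ k ∈ Q, ff P (k * g⁻¹) : ℝ) : ℂ) := by
    intro g
    rw [hξs]
    push_cast
    refine Finset.sum_congr rfl fun k hk => ?_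
    rw [hξv, if_pos hk, mul_one, Complex.conj_ofReal, mul_inv_rev, inv_inv]
  have hnorm : ∀ g, ‖∑ k ∈ ξ.support, starRingEnd ℂ ((ff P ((g * k⁻¹)⁻¹) : ℝ) : ℂ) * ξ k‖ =
      ∑ k ∈ Q, ff P (k * g⁻¹) := by
    intro g
    rw [hconv, Complex.norm_real, Real.norm_of_nonneg (Finset.sum_nonneg fun _ _ => ff_nonneg P _)]
  have hbig : ∀ s ∈ Finset.range L, (m : ℝ) * L * ((2 : ℝ) ^ NN n)⁻¹ ≤
      ∑ k ∈ Q, ff P (k * (P.α ^ s)⁻¹) := by
    intro s hs
    have hs' : s < L := Finset.mem_range.1 hs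
    set Q' : Finset G := (Finset.range m ×ˢ Finset.range L).image
      (fun z => P.t z.1 * P.α ^ (z.2 + s)) with hQ'
    have hsub : Q' ⊆ Q := by
      intro k hk
      obtain ⟨z, hz, rfl⟩ := Finset.mem_image.1 hk
      have hz' := Finset.mem_product.1 hz
      refine Finset.mem_image.2 ⟨(z.1, z.2 + s), ?_, rfl⟩
      have a1 := Finset.mem_range.1 hz'.1
      have a2 := Finset.mem_range.1 hz'.2
      simp only [Finset.mem_product, Finset.mem_range]
      omega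
    have hinj' : Set.InjOn (fun z : ℕ × ℕ => P.t z.1 * P.α ^ (z.2 + s))
        (Finset.range m ×ˢ Finset.range L : Finset (ℕ × ℕ)) := by
      intro z _ z' _ hzz
      have := P.ta_inj hzz
      exact Prod.ext this.1 (by omega)
    calc (m : ℝ) * L * ((2 : ℝ) ^ NN n)⁻¹
        = ∑ z ∈ Finset.range m ×ˢ Finset.range L, ((2 : ℝ) ^ NN n)⁻¹ := by
          rw [Finset.sum_const, Finset.card_product, Finset.card_range, Finset.card_range,
            nsmul_eq_mul]
          push_cast; ring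
      _ ≤ ∑ z ∈ Finset.range m ×ˢ Finset.range L, ff P (P.t z.1 * P.α ^ (z.2 + s) * (P.α ^ s)⁻¹) := by
          refine Finset.sum_le_sum fun z hz => ?_
          have hz' := Finset.mem_product.1 hz
          rw [pow_add, mul_assoc, mul_inv_cancel_right]
          exact ff_ge P n _ _ (Finset.mem_range.1 hz'.1) (Finset.mem_range.1 hz'.2)
      _ = ∑ k ∈ Q', ff P (k * (P.α ^ s)⁻¹) := by
          rw [hQ', Finset.sum_image hinj']
      _ ≤ ∑ k ∈ Q, ff P (k * (P.α ^ s)⁻¹) :=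
          Finset.sum_le_sum_of_subset_of_nonneg hsub fun _ _ _ => ff_nonneg P _
  have hinja : Set.InjOn (fun s : ℕ => P.α ^ s) (Finset.range L : Finset ℕ) := by
    intro s _ s' _ hss
    exact P.alpha_pow_inj hss
  have hlow : (L : ℝ) * ((m : ℝ) * L * ((2 : ℝ) ^ NN n)⁻¹) ^ p ≤
      ∑' g : G, ‖∑ k ∈ ξ.support, starRingEnd ℂ ((ff P ((g * k⁻¹)⁻¹) : ℝ) : ℂ) * ξ k‖ ^ p := by
    calc (L : ℝ) * ((m : ℝ) * L * ((2 : ℝ) ^ NN n)⁻¹) ^ p
        = ∑ s ∈ Finset.range L, ((m : ℝ) * L * ((2 : ℝ) ^ NN n)⁻¹) ^ p := by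
          rw [Finset.sum_const, Finset.card_range, nsmul_eq_mul]
      _ ≤ ∑ s ∈ Finset.range L, ‖∑ k ∈ ξ.support,
            starRingEnd ℂ ((ff P ((P.α ^ s * k⁻¹)⁻¹) : ℝ) : ℂ) * ξ k‖ ^ p := by
          refine Finset.sum_le_sum fun s hs => ?_
          rw [hnorm]
          exact Real.rpow_le_rpow (by positivity) (hbig s hs) hp.le
      _ = ∑ g ∈ (Finset.range L).image (fun s : ℕ => P.α ^ s), ‖∑ k ∈ ξ.support,
            starRingEnd ℂ ((ff P ((g * k⁻¹)⁻¹) : ℝ) : ℂ) * ξ k‖ ^ p := by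
          rw [Finset.sum_image hinja]
      _ ≤ _ := h1.sum_le_tsum _ fun _ _ => by positivity
  have hup : C * ∑ k ∈ ξ.support, ‖ξ k‖ ^ p ≤ |C| * (m * (2 * L)) := by
    have e : ∑ k ∈ ξ.support, ‖ξ k‖ ^ p = (Q.card : ℝ) := by
      rw [hξs]
      rw [Finset.sum_congr rfl (fun k hk => by rw [hξv, if_pos hk, norm_one, Real.one_rpow]),
        Finset.sum_const, nsmul_eq_mul, mul_one]
    rw [e]
    have hcard : (Q.card : ℝ) ≤ m * (2 * L) := by
      have : Q.card ≤ m * (2 * L) := by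
        refine Finset.card_image_le.trans ?_
        rw [Finset.card_product, Finset.card_range, Finset.card_range]
      exact_mod_cast this
    calc C * (Q.card : ℝ) ≤ |C| * Q.card := mul_le_mul_of_nonneg_right (le_abs_self _) (by positivity)
      _ ≤ _ := mul_le_mul_of_nonneg_left hcard (abs_nonneg _)
  exact hlow.trans (h2.trans hup)

theorem ff_not {p : ℝ} (hp : 2 < p) :
    ¬ IsConvolver p (fun x : G => starRingEnd ℂ ((ff P x⁻¹ : ℝ) : ℂ)) := by
  rintro ⟨C, hC⟩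
  have hp0 : 0 < p := by linarith
  have hb := fun n => block_low P hp0 hC n
  have key : ∀ n : ℕ, (2 : ℝ) ^ ((p - 2) * (n : ℝ) ^ 2 - 2 * p * n) ≤ 2 * |C| := by
    intro n
    have h := hb n
    have h2 : (0 : ℝ) < 2 := two_pos
    have hmm : (mm n : ℝ) = (2 : ℝ) ^ (2 * (n : ℝ) ^ 2) := by
      unfold mm
      push_cast
      rw [← Real.rpow_natCast]
      congr 1; push_cast; ring
    have hLL : (LL n : ℝ) = (2 : ℝ) ^ ((n : ℝ) ^ 3) := by
      unfold LL
      push_cast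
      rw [← Real.rpow_natCast]
      congr 1; push_cast; ring
    have hNN : ((2 : ℝ) ^ NN n)⁻¹ = (2 : ℝ) ^ (-((n : ℝ) ^ 3 + (n : ℝ) ^ 2 + 2 * n)) := by
      rw [Real.rpow_neg h2.le, ← Real.rpow_natCast]
      congr 2; unfold NN; push_cast; ring
    have hLpos : (0 : ℝ) < LL n := by rw [hLL]; positivity
    have hmpos : (0 : ℝ) < mm n := by rw [hmm]; positivity
    have h3 : ((mm n : ℝ) * LL n * ((2 : ℝ) ^ NN n)⁻¹) ^ p ≤ 2 * |C| * mm n := by
      have : (LL n : ℝ) * ((mm n : ℝ) * LL n * ((2 : ℝ) ^ NN n)⁻¹) ^ p ≤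
          LL n * (2 * |C| * mm n) := by
        refine h.trans (le_of_eq ?_); ring
      exact le_of_mul_le_mul_left this hLpos
    have e1 : ((mm n : ℝ) * LL n * ((2 : ℝ) ^ NN n)⁻¹) ^ p =
        (2 : ℝ) ^ (((n : ℝ) ^ 2 - 2 * n) * p) := by
      rw [hmm, hLL, hNN, ← Real.rpow_add h2, ← Real.rpow_add h2, ← Real.rpow_mul h2.le]
      congr 1; ring
    have e2 : (2 : ℝ) ^ (((n : ℝ) ^ 2 - 2 * n) * p) =
        (2 : ℝ) ^ ((p - 2) * (n : ℝ) ^ 2 - 2 * p * n) * mm n := by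
      rw [hmm, ← Real.rpow_add h2]
      congr 1; ring
    rw [e1, e2] at h3
    exact le_of_mul_le_mul_right h3 hmpos
  -- take n large
  obtain ⟨n, hn⟩ := exists_nat_gt (max ((2 * p + 1) / (p - 2)) (2 * |C|))
  have hn1 : (2 * p + 1) / (p - 2) < n := lt_of_le_of_lt (le_max_left _ _) hn
  have hn2 : 2 * |C| < n := lt_of_le_of_lt (le_max_right _ _) hn
  have hn0 : (0 : ℝ) ≤ n := Nat.cast_nonneg n
  have hp2 : 0 < p - 2 := by linarith
  have h3 : 2 * p + 1 < n * (p - 2) := by rwa [div_lt_iff₀ hp2] at hn1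
  have h4 : (n : ℝ) ≤ (p - 2) * (n : ℝ) ^ 2 - 2 * p * n := by nlinarith
  have h5 : (2 : ℝ) ^ (n : ℝ) ≤ 2 * |C| :=
    (Real.rpow_le_rpow_of_exponent_le (by norm_num) h4).trans (key n)
  rw [Real.rpow_natCast] at h5
  have h6 : (n : ℝ) < 2 ^ n := by exact_mod_cast Nat.lt_two_pow_self
  linarith

/-- The theorem for groups with ping-pong data. -/
theorem main {p : ℝ} (hp : 1 < p) :
    (IsConvolver p (fun x : G => ((ff P x : ℝ) : ℂ)) ↔ 2 ≤ p) ∧
      (IsConvolver p (fun x : G => starRingEnd ℂ ((ff P x⁻¹ : ℝ) : ℂ)) ↔ p ≤ 2) := by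
  obtain ⟨q, hpq, hqval⟩ : ∃ q : ℝ, p.HolderConjugate q ∧ q = p / (p - 1) :=
    ⟨p.conjExponent, Real.HolderConjugate.conjExponent hp, rfl⟩
  have hp1 : 0 < p - 1 := by linarith
  refine ⟨⟨fun h => ?_, fun h => ff_convolver P h⟩, ⟨fun h => ?_, fun h => ?_⟩⟩
  · by_contra hc
    push Not at hc
    have hq2 : 2 < q := by rw [hqval, lt_div_iff₀ hp1]; linarith
    have h' : IsConvolver q (fun x : G => starRingEnd ℂ ((ff P x⁻¹ : ℝ) : ℂ)) :=
      dual hpq (fun x : G => ((ff P x : ℝ) : ℂ)) h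
    exact ff_not P hq2 h'
  · by_contra hc
    push Not at hc
    exact ff_not P hc h
  · have hq2 : 2 ≤ q := by rw [hqval, le_div_iff₀ hp1]; linarith
    exact dual hpq.symm (fun x : G => ((ff P x : ℝ) : ℂ)) (ff_convolver P hq2)

/-! ### Groups containing a free group -/

variable {G' : Type*}

/-- Ping-pong data from an injective homomorphism of the free group of rank two. -/
theorem exists_PP (φ : FreeGroup (Fin 2) →* G) (hφ : Function.Injective φ) : Nonempty (PP G) := by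
  classical
  -- representatives of right cosets
  set r : G → G := fun g => (Quotient.mk (QuotientGroup.rightRel φ.range) g).out with hr
  have hr1 : ∀ g, g * (r g)⁻¹ ∈ φ.range := by
    intro g
    have : (QuotientGroup.rightRel φ.range) (r g) g := Quotient.mk_out (s := QuotientGroup.rightRel φ.range) g
    rwa [QuotientGroup.rightRel_apply] at this
  have hr2 : ∀ w g, r (φ w * g) = r g := by
    intro w g
    rw [hr]
    simp only
    congr 1
    refine Quotient.sound ?_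
    show (QuotientGroup.rightRel φ.range) (φ w * g) g
    rw [QuotientGroup.rightRel_apply]
    have : g * (φ w * g)⁻¹ = φ w⁻¹ := by rw [map_inv]; group
    rw [this]
    exact ⟨_, rfl⟩
  choose σ hσ using hr1
  have hσ2 : ∀ w g, σ (φ w * g) = w * σ g := by
    intro w g
    apply hφ
    rw [hσ, hr2, map_mul, hσ, mul_assoc]
  have hof : ∀ i : Fin 2, FreeGroup.of i = FreeGroup.mk [(i, true)] := fun i => rfl
  refine ⟨{
    α := φ (FreeGroup.of 0)
    β := φ (FreeGroup.of 1)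
    Ap := {g | σ g ∈ FreeGroup.startsWith ((0 : Fin 2), true)}
    Am := {g | σ g ∈ FreeGroup.startsWith ((0 : Fin 2), false)}
    Bp := {g | σ g ∈ FreeGroup.startsWith ((1 : Fin 2), true)}
    Bm := {g | σ g ∈ FreeGroup.startsWith ((1 : Fin 2), false)}
    hα := ?_
    hβ := ?_
    ApAm := ?_
    ApBp := ?_
    ApBm := ?_
    AmBp := ?_
    AmBm := ?_
    BpBm := ?_
    g0 := φ (FreeGroup.of 0) * (φ (σ 1))⁻¹ * 1
    hg0 := ?_ }⟩
  · intro g hg
    change σ _ ∈ FreeGroup.startsWith ((0 : Fin 2), true)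
    rw [hσ2, hof]
    exact FreeGroup.startsWith_mk_mul _ hg
  · intro g hg
    change σ _ ∈ FreeGroup.startsWith ((1 : Fin 2), true)
    rw [hσ2, hof]
    exact FreeGroup.startsWith_mk_mul _ hg
  iterate 6
    intro g h1 h2
    refine Set.disjoint_left.1 (FreeGroup.startsWith.disjoint_iff_ne.2 ?_) h1 h2
    decide
  · change σ _ ∈ FreeGroup.startsWith ((0 : Fin 2), true)
    rw [← map_inv, ← map_mul, hσ2, inv_mul_cancel_right]
    simp [FreeGroup.startsWith]

end Pool.Agent.D0H7.CVP
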