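import Mathlib

set_option autoImplicit false

open scoped ENNReal BigOperators

namespace Pool.Agent.D0H7.CVP

/-- Ping-pong data: `α (G ∖ A⁻) ⊆ A⁺`, `β (G ∖ B⁻) ⊆ B⁺`, four pairwise disjoint sets. -/
structure PP (G : Type*) [Group G] where
  α : G
  β : G
  Ap : Set G
  Am : Set G
  Bp : Set G
  Bm : Set G
  hα : ∀ g, g ∉ Am → α * g ∈ Ap
  hβ : ∀ g, g ∉ Bm → β * g ∈ Bp
  ApAm : ∀ g, g ∈ Ap → g ∉ Am
  ApBp : ∀ g, g ∈ Ap → g ∉ Bp
  ApBm : ∀ g, g ∈ Ap → g ∉ Bm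
  AmBp : ∀ g, g ∈ Am → g ∉ Bp
  AmBm : ∀ g, g ∈ Am → g ∉ Bm
  BpBm : ∀ g, g ∈ Bp → g ∉ Bm
  g0 : G
  hg0 : g0 ∈ Ap

variable {G : Type*} [Group G] (P : PP G)

namespace PP

/-- `t i = β^(i+1) α β^(-(i+1))`. -/
def t (i : ℕ) : G := P.β ^ (i + 1) * P.α * (P.β ^ (i + 1))⁻¹

def Up (i : ℕ) : Set G := {g | (P.β ^ (i + 1))⁻¹ * g ∈ P.Ap}

def Um (i : ℕ) : Set G := {g | (P.β ^ (i + 1))⁻¹ * g ∈ P.Am}

lemma pow_beta_mem (k : ℕ) (g : G) (hg : g ∉ P.Bm) : P.β ^ (k + 1) * g ∈ P.Bp := by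
  induction k with
  | zero => simpa using P.hβ g hg
  | succ k ih =>
    rw [pow_succ' P.β (k + 1), mul_assoc]
    exact P.hβ _ (P.BpBm _ ih)

lemma pow_alpha_mem (k : ℕ) (g : G) (hg : g ∉ P.Am) : P.α ^ (k + 1) * g ∈ P.Ap := by
  induction k with
  | zero => simpa using P.hα g hg
  | succ k ih =>
    rw [pow_succ' P.α (k + 1), mul_assoc]
    exact P.hα _ (P.ApAm _ ih)

lemma t_mem (i : ℕ) (g : G) (hg : g ∉ P.Um i) : P.t i * g ∈ P.Up i := by
  have h : (P.β ^ (i + 1))⁻¹ * g ∉ P.Am := hg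
  have h2 := P.hα _ h
  show (P.β ^ (i + 1))⁻¹ * (P.t i * g) ∈ P.Ap
  have : (P.β ^ (i + 1))⁻¹ * (P.t i * g) = P.α * ((P.β ^ (i + 1))⁻¹ * g) := by
    rw [t]; group
  rw [this]; exact h2

lemma Up_aux (i k : ℕ) (g : G) (h1 : g ∈ P.Up i) (h2 : g ∈ P.Up (i + k + 1)) : False := by
  have h1' : (P.β ^ (i + 1))⁻¹ * g ∈ P.Ap := h1
  have h2' : (P.β ^ (i + k + 1 + 1))⁻¹ * g ∈ P.Ap := h2
  have h3 := P.pow_beta_mem k _ (P.ApBm _ h2')
  have : P.β ^ (k + 1) * ((P.β ^ (i + k + 1 + 1))⁻¹ * g) = (P.β ^ (i + 1))⁻¹ * g := by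
    rw [show i + k + 1 + 1 = (i + 1) + (k + 1) by ring, pow_add]
    group
  rw [this] at h3
  exact P.ApBp _ h1' h3

lemma Um_aux (i k : ℕ) (g : G) (h1 : g ∈ P.Um i) (h2 : g ∈ P.Um (i + k + 1)) : False := by
  have h1' : (P.β ^ (i + 1))⁻¹ * g ∈ P.Am := h1
  have h2' : (P.β ^ (i + k + 1 + 1))⁻¹ * g ∈ P.Am := h2
  have h3 := P.pow_beta_mem k _ (P.AmBm _ h2')
  have : P.β ^ (k + 1) * ((P.β ^ (i + k + 1 + 1))⁻¹ * g) = (P.β ^ (i + 1))⁻¹ * g := by
    rw [show i + k + 1 + 1 = (i + 1) + (k + 1) by ring, pow_add]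
    group
  rw [this] at h3
  exact P.AmBp _ h1' h3

lemma Up_disj (i j : ℕ) (g : G) (h1 : g ∈ P.Up i) (h2 : g ∈ P.Up j) : i = j := by
  rcases lt_trichotomy i j with h | h | h
  · obtain ⟨k, rfl⟩ := Nat.exists_eq_add_of_lt h
    exact (P.Up_aux i k g h1 h2).elim
  · exact h
  · obtain ⟨k, rfl⟩ := Nat.exists_eq_add_of_lt h
    exact (P.Up_aux j k g h2 h1).elim

lemma Um_disj (i j : ℕ) (g : G) (h1 : g ∈ P.Um i) (h2 : g ∈ P.Um j) : i = j := by
  rcases lt_trichotomy i j with h | h | h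
  · obtain ⟨k, rfl⟩ := Nat.exists_eq_add_of_lt h
    exact (P.Um_aux i k g h1 h2).elim
  · exact h
  · obtain ⟨k, rfl⟩ := Nat.exists_eq_add_of_lt h
    exact (P.Um_aux j k g h2 h1).elim

lemma Um_sub (i : ℕ) (g : G) (h : g ∈ P.Um i) : g ∈ P.Bp := by
  have h' : (P.β ^ (i + 1))⁻¹ * g ∈ P.Am := h
  have h3 := P.pow_beta_mem i _ (P.AmBm _ h')
  simpa using h3

lemma aUm_aux (i i' j k : ℕ) (g : G) (h1 : P.α ^ j * g ∈ P.Um i)
    (h2 : P.α ^ (j + k + 1) * g ∈ P.Um i') : False := by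
  have h1' := P.Um_sub _ _ h1
  have h2' := P.Um_sub _ _ h2
  have h3 : P.α ^ j * g ∉ P.Am := fun h => P.AmBp _ h h1'
  have h4 := P.pow_alpha_mem k _ h3
  have : P.α ^ (k + 1) * (P.α ^ j * g) = P.α ^ (j + k + 1) * g := by
    rw [← mul_assoc, ← pow_add, show k + 1 + j = j + k + 1 by ring]
  rw [this] at h4
  exact P.ApBp _ h4 h2'

lemma aUm_disj (i i' j j' : ℕ) (g : G) (h1 : P.α ^ j * g ∈ P.Um i)
    (h2 : P.α ^ j' * g ∈ P.Um i') : i = i' ∧ j = j' := by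
  rcases lt_trichotomy j j' with h | h | h
  · obtain ⟨k, rfl⟩ := Nat.exists_eq_add_of_lt h
    exact (P.aUm_aux i i' j k g h1 h2).elim
  · subst h
    exact ⟨P.Um_disj _ _ _ h1 h2, rfl⟩
  · obtain ⟨k, rfl⟩ := Nat.exists_eq_add_of_lt h
    exact (P.aUm_aux i' i j' k g h2 h1).elim

lemma alpha_pow_inj {l l' : ℕ} (h : P.α ^ l = P.α ^ l') : l = l' := by
  have key : ∀ l k : ℕ, P.α ^ l ≠ P.α ^ (l + k + 1) := by
    intro l k h
    have h1 : P.α ^ (k + 1) = 1 := by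
      have : P.α ^ l * P.α ^ (k + 1) = P.α ^ l * 1 := by
        rw [← pow_add, ← add_assoc, ← h, mul_one]
      exact mul_left_cancel this
    have hb : P.β ^ (0 + 1) * P.g0 ∈ P.Bp := P.pow_beta_mem 0 _ (P.ApBm _ P.hg0)
    have h2 := P.pow_alpha_mem k (P.β ^ (0 + 1) * P.g0) (fun h => P.AmBp _ h hb)
    rw [h1, one_mul] at h2
    exact P.ApBp _ h2 hb
  rcases lt_trichotomy l l' with h' | h' | h'
  · obtain ⟨k, rfl⟩ := Nat.exists_eq_add_of_lt h'
    exact (key _ _ h).elim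
  · exact h'
  · obtain ⟨k, rfl⟩ := Nat.exists_eq_add_of_lt h'
    exact (key _ _ h.symm).elim

lemma ta_inj {i i' l l' : ℕ} (h : P.t i * P.α ^ l = P.t i' * P.α ^ l') : i = i' ∧ l = l' := by
  have hA : ∀ l : ℕ, P.α ^ l * P.g0 ∈ P.Ap := by
    intro l
    rcases l with _ | l
    · simpa using P.hg0
    · exact P.pow_alpha_mem l _ (P.ApAm _ P.hg0)
  have hU : ∀ i l : ℕ, P.t i * P.α ^ l * P.g0 ∈ P.Up i := by
    intro i l
    rw [mul_assoc]
    exact P.t_mem i _ (fun h => P.ApBp _ (hA l) (P.Um_sub _ _ h))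
  have h1 := hU i l
  have h2 := hU i' l'
  rw [← h] at h2
  have hi := P.Up_disj _ _ _ h1 h2
  subst hi
  exact ⟨rfl, P.alpha_pow_inj (mul_left_cancel h)⟩

end PP

open Classical in
/-- The upper bound for one block. -/
theorem block_bound (X : G → ℝ≥0∞) (p : ℝ) (hp : 1 ≤ p) (m L : ℕ) :
    ∑' g, (∑ z ∈ Finset.range m ×ˢ Finset.range L, X ((P.t z.1 * P.α ^ z.2)⁻¹ * g)) ^ p ≤
      2 ^ (p - 1) * ((m : ℝ≥0∞) * L * (L : ℝ≥0∞) ^ (p - 1) + ((m : ℝ≥0∞) * L) ^ (p - 1)) *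
        ∑' k, X k ^ p := by
  have hp0 : 0 < p := by linarith
  set S1 : G → ℝ≥0∞ := fun g => ∑ z ∈ Finset.range m ×ˢ Finset.range L,
    if (P.t z.1)⁻¹ * g ∈ P.Um z.1 then 0 else X ((P.t z.1 * P.α ^ z.2)⁻¹ * g) with hS1
  set S2 : G → ℝ≥0∞ := fun g => ∑ z ∈ Finset.range m ×ˢ Finset.range L,
    if (P.t z.1)⁻¹ * g ∈ P.Um z.1 then X ((P.t z.1 * P.α ^ z.2)⁻¹ * g) else 0 with hS2
  have hsplit : ∀ g, ∑ z ∈ Finset.range m ×ˢ Finset.range L, X ((P.t z.1 * P.α ^ z.2)⁻¹ * g)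
      = S1 g + S2 g := by
    intro g
    rw [hS1, hS2]
    simp only
    rw [← Finset.sum_add_distrib]
    refine Finset.sum_congr rfl fun z _ => ?_
    split_ifs <;> simp
  -- translation invariance
  have htr : ∀ (c : G) (Y : G → ℝ≥0∞), ∑' g, Y (c⁻¹ * g) = ∑' g, Y g := by
    intro c Y
    exact (Equiv.mulLeft c⁻¹).tsum_eq Y
  -- S1
  have h1 : ∑' g, S1 g ^ p ≤ (m : ℝ≥0∞) * L * (L : ℝ≥0∞) ^ (p - 1) * ∑' k, X k ^ p := by
    have hpt : ∀ g, S1 g ^ p ≤ (L : ℝ≥0∞) ^ (p - 1) *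
        ∑ z ∈ Finset.range m ×ˢ Finset.range L, X ((P.t z.1 * P.α ^ z.2)⁻¹ * g) ^ p := by
      intro g
      rw [hS1]
      simp only
      rw [Finset.sum_product, Finset.sum_product, Finset.mul_sum]
      by_cases hex : ∃ i ∈ Finset.range m, (P.t i)⁻¹ * g ∉ P.Um i
      · obtain ⟨i, hi, hiU⟩ := hex
        have hgi : g ∈ P.Up i := by
          have := P.t_mem i _ hiU
          simpa using this
        have hz : ∀ i' ∈ Finset.range m, i' ≠ i → (∑ j ∈ Finset.range L,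
            if (P.t i')⁻¹ * g ∈ P.Um i' then (0 : ℝ≥0∞)
              else X ((P.t i' * P.α ^ j)⁻¹ * g)) = 0 := by
          intro i' _ hne
          refine Finset.sum_eq_zero fun j _ => ?_
          rw [if_pos]
          by_contra hc
          have := P.t_mem i' _ hc
          rw [mul_inv_cancel_left] at this
          exact hne (P.Up_disj _ _ _ this hgi)
        rw [Finset.sum_eq_single i hz (fun h => (h hi).elim)]
        refine le_trans ?_ (Finset.single_le_sum (f := fun i => (L : ℝ≥0∞) ^ (p - 1) *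
          ∑ j ∈ Finset.range L, X ((P.t i * P.α ^ j)⁻¹ * g) ^ p) (fun _ _ => zero_le) hi)
        simp only [if_neg hiU]
        have := ENNReal.rpow_sum_le_const_mul_sum_rpow (Finset.range L)
          (fun j => X ((P.t i * P.α ^ j)⁻¹ * g)) hp
        simpa using this
      · push Not at hex
        have hz : ∀ i' ∈ Finset.range m, (∑ j ∈ Finset.range L,
            if (P.t i')⁻¹ * g ∈ P.Um i' then (0 : ℝ≥0∞)
              else X ((P.t i' * P.α ^ j)⁻¹ * g)) = 0 := by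
          intro i' hi'
          refine Finset.sum_eq_zero fun j _ => ?_
          rw [if_pos (hex i' hi')]
        rw [Finset.sum_eq_zero hz, ENNReal.zero_rpow_of_pos hp0]
        exact zero_le
    calc ∑' g, S1 g ^ p ≤ ∑' g, (L : ℝ≥0∞) ^ (p - 1) *
        ∑ z ∈ Finset.range m ×ˢ Finset.range L, X ((P.t z.1 * P.α ^ z.2)⁻¹ * g) ^ p :=
          ENNReal.tsum_le_tsum hpt
      _ = (L : ℝ≥0∞) ^ (p - 1) * ∑ z ∈ Finset.range m ×ˢ Finset.range L,
          ∑' g, X ((P.t z.1 * P.α ^ z.2)⁻¹ * g) ^ p := by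
          rw [ENNReal.tsum_mul_left, Summable.tsum_finsetSum (fun _ _ => ENNReal.summable)]
      _ = (L : ℝ≥0∞) ^ (p - 1) * ∑ z ∈ Finset.range m ×ˢ Finset.range L,
          ∑' g, X g ^ p := by
          congr 1
          refine Finset.sum_congr rfl fun z _ => ?_
          exact htr (P.t z.1 * P.α ^ z.2) (fun g => X g ^ p)
      _ = (m : ℝ≥0∞) * L * (L : ℝ≥0∞) ^ (p - 1) * ∑' k, X k ^ p := by
          rw [Finset.sum_const, Finset.card_product, Finset.card_range, Finset.card_range,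
            nsmul_eq_mul]
          push_cast
          ring
  -- S2
  have h2 : ∑' g, S2 g ^ p ≤ ((m : ℝ≥0∞) * L) ^ (p - 1) * ∑' k, X k ^ p := by
    have hpt : ∀ g, S2 g ^ p ≤ ((m : ℝ≥0∞) * L) ^ (p - 1) *
        ∑ z ∈ Finset.range m ×ˢ Finset.range L,
          if (P.t z.1)⁻¹ * g ∈ P.Um z.1 then X ((P.t z.1 * P.α ^ z.2)⁻¹ * g) ^ p else 0 := by
      intro g
      have := ENNReal.rpow_sum_le_const_mul_sum_rpow (Finset.range m ×ˢ Finset.range L)
          (fun z => if (P.t z.1)⁻¹ * g ∈ P.Um z.1 then X ((P.t z.1 * P.α ^ z.2)⁻¹ * g) else 0) hp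
      rw [Finset.card_product, Finset.card_range, Finset.card_range] at this
      push_cast at this
      refine this.trans (le_of_eq ?_)
      congr 1
      refine Finset.sum_congr rfl fun z _ => ?_
      split_ifs
      · rfl
      · exact ENNReal.zero_rpow_of_pos hp0
    calc ∑' g, S2 g ^ p ≤ ∑' g, ((m : ℝ≥0∞) * L) ^ (p - 1) *
        ∑ z ∈ Finset.range m ×ˢ Finset.range L,
          (if (P.t z.1)⁻¹ * g ∈ P.Um z.1 then X ((P.t z.1 * P.α ^ z.2)⁻¹ * g) ^ p else 0) :=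
          ENNReal.tsum_le_tsum hpt
      _ = ((m : ℝ≥0∞) * L) ^ (p - 1) * ∑ z ∈ Finset.range m ×ˢ Finset.range L,
          ∑' g, (if (P.t z.1)⁻¹ * g ∈ P.Um z.1 then X ((P.t z.1 * P.α ^ z.2)⁻¹ * g) ^ p else 0) := by
          rw [ENNReal.tsum_mul_left, Summable.tsum_finsetSum (fun _ _ => ENNReal.summable)]
      _ = ((m : ℝ≥0∞) * L) ^ (p - 1) * ∑ z ∈ Finset.range m ×ˢ Finset.range L,
          ∑' g, (if P.α ^ z.2 * g ∈ P.Um z.1 then X g ^ p else 0) := by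
          congr 1
          refine Finset.sum_congr rfl fun z _ => ?_
          rw [← htr (P.t z.1 * P.α ^ z.2)
            (fun g => if P.α ^ z.2 * g ∈ P.Um z.1 then X g ^ p else 0)]
          refine tsum_congr fun g => ?_
          have : P.α ^ z.2 * ((P.t z.1 * P.α ^ z.2)⁻¹ * g) = (P.t z.1)⁻¹ * g := by group
          rw [this]
      _ = ((m : ℝ≥0∞) * L) ^ (p - 1) * ∑' g, ∑ z ∈ Finset.range m ×ˢ Finset.range L,
          (if P.α ^ z.2 * g ∈ P.Um z.1 then X g ^ p else 0) := by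
          rw [Summable.tsum_finsetSum (fun _ _ => ENNReal.summable)]
      _ ≤ ((m : ℝ≥0∞) * L) ^ (p - 1) * ∑' g, X g ^ p := by
          gcongr with g
          by_cases hex : ∃ z ∈ Finset.range m ×ˢ Finset.range L, P.α ^ z.2 * g ∈ P.Um z.1
          · obtain ⟨z, hz, hzU⟩ := hex
            rw [Finset.sum_eq_single z]
            · rw [if_pos hzU]
            · intro z' _ hne
              rw [if_neg]
              intro hc
              have := P.aUm_disj _ _ _ _ _ hc hzU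
              exact hne (Prod.ext this.1 this.2)
            · intro h; exact (h hz).elim
          · push Not at hex
            rw [Finset.sum_eq_zero]
            · exact zero_le
            · intro z hz
              rw [if_neg (hex z hz)]
  calc ∑' g, (∑ z ∈ Finset.range m ×ˢ Finset.range L, X ((P.t z.1 * P.α ^ z.2)⁻¹ * g)) ^ p
      = ∑' g, (S1 g + S2 g) ^ p := by
        refine tsum_congr fun g => ?_
        rw [hsplit]
    _ ≤ ∑' g, 2 ^ (p - 1) * (S1 g ^ p + S2 g ^ p) :=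
        ENNReal.tsum_le_tsum fun g => ENNReal.rpow_add_le_mul_rpow_add_rpow _ _ hp
    _ = 2 ^ (p - 1) * (∑' g, S1 g ^ p + ∑' g, S2 g ^ p) := by
        rw [ENNReal.tsum_mul_left, ENNReal.tsum_add]
    _ ≤ 2 ^ (p - 1) * ((m : ℝ≥0∞) * L * (L : ℝ≥0∞) ^ (p - 1) * ∑' k, X k ^ p +
        ((m : ℝ≥0∞) * L) ^ (p - 1) * ∑' k, X k ^ p) := by
        gcongr
    _ = _ := by ring

end Pool.Agent.D0H7.CVP
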